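import Mathlib
import Pool.Agent.W837.GB.Defs

/-!
Project GB (helper837): every matrix is a sandwich of compressions of inverses.
-/

set_option autoImplicit false

namespace Pool.Agent.W753.GB

open Pool.Agent.W837.GB Matrix

section

variable {n m : ℕ}

/-- compression of a rectangular block matrix -/
def cp {κ κ' : Type} [Fintype κ] [Fintype κ'] (D : Matrix (Fin m × κ) (Fin m × κ') ℂ)
    (f : κ → ℂ) (g : κ' → ℂ) : Matrix (Fin m) (Fin m) ℂ :=
  fun x y => ∑ s, ∑ t, f s * D (x, s) (y, t) * g t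

/-- `∑ a_j ⊗ d_j` -/
def DM (a : Fin n → Matrix (Fin m) (Fin m) ℂ) {κ κ' : Type} (d : Fin n → Matrix κ κ' ℂ) :
    Matrix (Fin m × κ) (Fin m × κ') ℂ := ∑ j, Matrix.kronecker (a j) (d j)

lemma DM_apply (a : Fin n → Matrix (Fin m) (Fin m) ℂ) {κ κ' : Type} (d : Fin n → Matrix κ κ' ℂ)
    (x y : Fin m) (s : κ) (t : κ') : DM a d (x, s) (y, t) = ∑ j, a j x y * d j s t := by
  unfold DM
  rw [Matrix.sum_apply]
  rfl

lemma DM_blocks (a : Fin n → Matrix (Fin m) (Fin m) ℂ) {κ κ' : Type}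
    (A : Fin n → Matrix κ κ ℂ) (B : Fin n → Matrix κ κ' ℂ) (C : Fin n → Matrix κ' κ ℂ)
    (D : Fin n → Matrix κ' κ' ℂ) :
    DM a (fun j => fromBlocks (A j) (B j) (C j) (D j)) =
      (fromBlocks (DM a A) (DM a B) (DM a C) (DM a D)).submatrix
        (Equiv.prodSumDistrib (Fin m) κ κ') (Equiv.prodSumDistrib (Fin m) κ κ') := by
  ext ⟨x, s⟩ ⟨y, t⟩
  rcases s with s | s <;> rcases t with t | t <;> simp [DM_apply]

lemma cp_blocks {κ κ' : Type} [Fintype κ] [Fintype κ']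
    (A : Matrix (Fin m × κ) (Fin m × κ) ℂ) (B : Matrix (Fin m × κ) (Fin m × κ') ℂ)
    (C : Matrix (Fin m × κ') (Fin m × κ) ℂ) (D : Matrix (Fin m × κ') (Fin m × κ') ℂ)
    (f : κ → ℂ) (f' : κ' → ℂ) (g : κ → ℂ) (g' : κ' → ℂ) :
    cp ((fromBlocks A B C D).submatrix
        (Equiv.prodSumDistrib (Fin m) κ κ') (Equiv.prodSumDistrib (Fin m) κ κ'))
        (Sum.elim f f') (Sum.elim g g') = cp A f g + cp B f g' + cp C f' g + cp D f' g' := by
  ext x y
  simp [cp, Finset.sum_add_distrib]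
  ring

lemma cp_smul {κ κ' : Type} [Fintype κ] [Fintype κ'] (D : Matrix (Fin m × κ) (Fin m × κ') ℂ)
    (f : κ → ℂ) (g : κ' → ℂ) (c : ℂ) : cp D (c • f) g = c • cp D f g := by
  ext x y
  simp [cp, Finset.mul_sum, mul_assoc]

lemma cp_zero {κ κ' : Type} [Fintype κ] [Fintype κ'] (D : Matrix (Fin m × κ) (Fin m × κ') ℂ)
    (g : κ' → ℂ) : cp D 0 g = 0 := by
  ext x y
  simp [cp]

lemma cp_zero' {κ κ' : Type} [Fintype κ] [Fintype κ'] (D : Matrix (Fin m × κ) (Fin m × κ') ℂ)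
    (f : κ → ℂ) : cp D f 0 = 0 := by
  ext x y
  simp [cp]

lemma cp_matrix_zero {κ κ' : Type} [Fintype κ] [Fintype κ']
    (f : κ → ℂ) (g : κ' → ℂ) : cp (0 : Matrix (Fin m × κ) (Fin m × κ') ℂ) f g = 0 := by
  ext x y
  simp [cp]

lemma cp_neg {κ κ' : Type} [Fintype κ] [Fintype κ'] (D : Matrix (Fin m × κ) (Fin m × κ') ℂ)
    (f : κ → ℂ) (g : κ' → ℂ) : cp (-D) f g = -cp D f g := by
  ext x y
  simp [cp]

/-- `1 ⊗ f^T` -/
def Lf (m : ℕ) {κ : Type} (f : κ → ℂ) : Matrix (Fin m) (Fin m × κ) ℂ :=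
  fun x p => if x = p.1 then f p.2 else 0

/-- `1 ⊗ g` -/
def Rg (m : ℕ) {κ : Type} (g : κ → ℂ) : Matrix (Fin m × κ) (Fin m) ℂ :=
  fun p x => if p.1 = x then g p.2 else 0

lemma cp_eq {κ κ' : Type} [Fintype κ] [Fintype κ'] (D : Matrix (Fin m × κ) (Fin m × κ') ℂ)
    (f : κ → ℂ) (g : κ' → ℂ) : cp D f g = Lf m f * D * Rg m g := by
  ext x y
  simp only [cp, Lf, Rg, Matrix.mul_apply, Fintype.sum_prod_type, ite_mul, zero_mul, mul_ite,
    mul_zero]
  rw [Finset.sum_comm]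
  simp only [Finset.sum_mul]
  simp [Finset.sum_ite_irrel]

lemma kron_eq {κ κ' : Type} (b : Matrix (Fin m) (Fin m) ℂ)
    (g : κ → ℂ) (f' : κ' → ℂ) :
    Matrix.kronecker b (vecMulVec g f') = Rg m g * b * Lf m f' := by
  ext ⟨x, s⟩ ⟨y, t⟩
  simp [Lf, Rg, Matrix.mul_apply, vecMulVec_apply]
  ring

/-- compression through a rank one middle factor -/
lemma cp_mul {κ κ' : Type} [Fintype κ] [Fintype κ'] (D : Matrix (Fin m × κ) (Fin m × κ) ℂ)
    (D' : Matrix (Fin m × κ') (Fin m × κ') ℂ) (b : Matrix (Fin m) (Fin m) ℂ)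
    (f g : κ → ℂ) (f' g' : κ' → ℂ) :
    cp (D * Matrix.kronecker b (vecMulVec g f') * D') f g' = cp D f g * b * cp D' f' g' := by
  rw [cp_eq, cp_eq, cp_eq, kron_eq]
  simp only [Matrix.mul_assoc]

/-- the compressions of the inverses -/
def RR (a : Fin n → Matrix (Fin m) (Fin m) ℂ) (X : Matrix (Fin m) (Fin m) ℂ) : Prop :=
  ∃ (κ : Type) (_ : Fintype κ) (_ : DecidableEq κ) (_ : Nonempty κ) (d : Fin n → Matrix κ κ ℂ)
    (f g : κ → ℂ), (DM a d).det ≠ 0 ∧ cp (DM a d)⁻¹ f g = X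

/-- the sandwiches -/
def SS (a : Fin n → Matrix (Fin m) (Fin m) ℂ) (X : Matrix (Fin m) (Fin m) ℂ) : Prop :=
  ∃ (κ : Type) (_ : Fintype κ) (_ : DecidableEq κ) (_ : Nonempty κ) (d : Fin n → Matrix κ κ ℂ)
    (f g : Fin n → κ → ℂ), (DM a d).det ≠ 0 ∧
      ∑ j, ∑ k, a j * cp (DM a d)⁻¹ (f j) (g k) * a k = X

variable {a : Fin n → Matrix (Fin m) (Fin m) ℂ}

/-- upper triangular blocks -/
lemma tri {κ κ' : Type} [Fintype κ] [Fintype κ'] [DecidableEq κ] [DecidableEq κ']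
    (A : Fin n → Matrix κ κ ℂ) (B : Fin n → Matrix κ κ' ℂ)
    (D : Fin n → Matrix κ' κ' ℂ) (hA : (DM a A).det ≠ 0) (hD : (DM a D).det ≠ 0) :
    (DM a (fun j => fromBlocks (A j) (B j) 0 (D j))).det ≠ 0 ∧
    (DM a (fun j => fromBlocks (A j) (B j) 0 (D j)))⁻¹ =
      (fromBlocks (DM a A)⁻¹ (-((DM a A)⁻¹ * DM a B * (DM a D)⁻¹)) 0 (DM a D)⁻¹).submatrix
        (Equiv.prodSumDistrib (Fin m) κ κ') (Equiv.prodSumDistrib (Fin m) κ κ') := by
  have h0 : DM a (fun _ => (0 : Matrix κ' κ ℂ)) = 0 := by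
    ext ⟨x, s⟩ ⟨y, t⟩
    simp [DM_apply]
  rw [DM_blocks, h0]
  constructor
  · rw [Matrix.det_submatrix_equiv_self, Matrix.det_fromBlocks_zero₂₁]
    exact mul_ne_zero hA hD
  · rw [Matrix.inv_submatrix_equiv, Matrix.inv_fromBlocks_zero₂₁_of_isUnit_iff]
    rw [Matrix.isUnit_iff_isUnit_det, Matrix.isUnit_iff_isUnit_det]
    exact ⟨fun _ => isUnit_iff_ne_zero.2 hD, fun _ => isUnit_iff_ne_zero.2 hA⟩

lemma RR.add {X Y : Matrix (Fin m) (Fin m) ℂ} (hX : RR a X) (hY : RR a Y) : RR a (X + Y) := by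
  obtain ⟨κ, i1, i2, i3, d, f, g, h1, h2⟩ := hX
  obtain ⟨κ', i1', i2', i3', d', f', g', h1', h2'⟩ := hY
  obtain ⟨t1, t2⟩ := tri (a := a) d (fun _ => 0) d' h1 h1'
  refine ⟨κ ⊕ κ', inferInstance, inferInstance, inferInstance, _, Sum.elim f f', Sum.elim g g',
    t1, ?_⟩
  have h0 : DM a (fun _ => (0 : Matrix κ κ' ℂ)) = 0 := by
    ext ⟨x, s⟩ ⟨y, t⟩
    simp [DM_apply]
  rw [t2, cp_blocks, h0, h2, h2', Matrix.mul_zero, Matrix.zero_mul, neg_zero, cp_matrix_zero, cp_matrix_zero]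
  simp

lemma RR.smul {X : Matrix (Fin m) (Fin m) ℂ} (c : ℂ) (hX : RR a X) : RR a (c • X) := by
  obtain ⟨κ, i1, i2, i3, d, f, g, h1, h2⟩ := hX
  exact ⟨κ, i1, i2, i3, d, c • f, g, h1, by rw [cp_smul, h2]⟩

lemma RR.mul {X Y : Matrix (Fin m) (Fin m) ℂ} (j : Fin n) (hX : RR a X) (hY : RR a Y) :
    RR a (X * a j * Y) := by
  obtain ⟨κ, i1, i2, i3, d, f, g, h1, h2⟩ := hX
  obtain ⟨κ', i1', i2', i3', d', f', g', h1', h2'⟩ := hY
  obtain ⟨t1, t2⟩ := tri (a := a) d (fun i => if i = j then vecMulVec g f' else 0) d' h1 h1'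
  refine ⟨κ ⊕ κ', inferInstance, inferInstance, inferInstance, _, Sum.elim (-f) 0, Sum.elim 0 g',
    t1, ?_⟩
  have h0 : DM a (fun i => if i = j then vecMulVec g f' else (0 : Matrix κ κ' ℂ)) =
      Matrix.kronecker (a j) (vecMulVec g f') := by
    ext ⟨x, s⟩ ⟨y, t⟩
    rw [DM_apply, Finset.sum_eq_single j]
    · simp
    · intro i _ hi
      simp [hi]
    · simp
  have h3 : -f = (-1 : ℂ) • f := by simp
  rw [t2, cp_blocks, h0, cp_zero', cp_zero, cp_zero, cp_neg, h3, cp_smul, cp_mul, h2, h2']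
  simp

lemma RR.zero (h : Inv a) : RR a 0 := by
  obtain ⟨K, d, hK, hd⟩ := h
  have : Nonempty (Fin K) := ⟨⟨0, hK⟩⟩
  exact ⟨Fin K, inferInstance, inferInstance, inferInstance, d, 0, 0, hd, cp_zero _ _⟩

lemma RR.sum (h : Inv a) {ι : Type} (s : Finset ι) (X : ι → Matrix (Fin m) (Fin m) ℂ)
    (hX : ∀ i ∈ s, RR a (X i)) : RR a (∑ i ∈ s, X i) := by
  classical
  induction s using Finset.induction_on with
  | empty => simpa using RR.zero h
  | insert b s hb ih =>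
    rw [Finset.sum_insert hb]
    exact (hX b (Finset.mem_insert_self _ _)).add
      (ih fun i hi => hX i (Finset.mem_insert_of_mem hi))

lemma SS.add {X Y : Matrix (Fin m) (Fin m) ℂ} (hX : SS a X) (hY : SS a Y) : SS a (X + Y) := by
  obtain ⟨κ, i1, i2, i3, d, f, g, h1, h2⟩ := hX
  obtain ⟨κ', i1', i2', i3', d', f', g', h1', h2'⟩ := hY
  obtain ⟨t1, t2⟩ := tri (a := a) d (fun _ => 0) d' h1 h1'
  refine ⟨κ ⊕ κ', inferInstance, inferInstance, inferInstance, _, fun j => Sum.elim (f j) (f' j),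
    fun j => Sum.elim (g j) (g' j), t1, ?_⟩
  have h0 : DM a (fun _ => (0 : Matrix κ κ' ℂ)) = 0 := by
    ext ⟨x, s⟩ ⟨y, t⟩
    simp [DM_apply]
  rw [t2, h0, Matrix.mul_zero, Matrix.zero_mul, neg_zero, ← h2, ← h2', ← Finset.sum_add_distrib]
  refine Finset.sum_congr rfl fun j _ => ?_
  rw [← Finset.sum_add_distrib]
  refine Finset.sum_congr rfl fun k _ => ?_
  rw [cp_blocks, cp_matrix_zero, cp_matrix_zero, add_zero, add_zero, mul_add, add_mul]

lemma SS.zero (h : Inv a) : SS a 0 := by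
  obtain ⟨K, d, hK, hd⟩ := h
  have : Nonempty (Fin K) := ⟨⟨0, hK⟩⟩
  refine ⟨Fin K, inferInstance, inferInstance, inferInstance, d, 0, 0, hd, ?_⟩
  simp [cp_zero]

lemma SS.sum (h : Inv a) {ι : Type} (s : Finset ι) (X : ι → Matrix (Fin m) (Fin m) ℂ)
    (hX : ∀ i ∈ s, SS a (X i)) : SS a (∑ i ∈ s, X i) := by
  classical
  induction s using Finset.induction_on with
  | empty => simpa using SS.zero h
  | insert b s hb ih =>
    rw [Finset.sum_insert hb]
    exact (hX b (Finset.mem_insert_self _ _)).add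
      (ih fun i hi => hX i (Finset.mem_insert_of_mem hi))

lemma RR.sand {X : Matrix (Fin m) (Fin m) ℂ} (j k : Fin n) (hX : RR a X) :
    SS a (a j * X * a k) := by
  obtain ⟨κ, i1, i2, i3, d, f, g, h1, h2⟩ := hX
  refine ⟨κ, i1, i2, i3, d, Pi.single j f, Pi.single k g, h1, ?_⟩
  rw [Finset.sum_eq_single j, Finset.sum_eq_single k]
  · rw [Pi.single_eq_same, Pi.single_eq_same, h2]
  · intro i _ hi
    rw [Pi.single_eq_of_ne hi, cp_zero', mul_zero, zero_mul]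
  · simp
  · intro i _ hi
    refine Finset.sum_eq_zero fun l _ => ?_
    rw [Pi.single_eq_of_ne hi, cp_zero, mul_zero, zero_mul]
  · simp

lemma LR {κ : Type} [Fintype κ] [DecidableEq κ] (k : κ) :
    Lf m (Pi.single k (1 : ℂ)) * Rg m (Pi.single k (1 : ℂ)) = 1 := by
  ext x y
  rw [Matrix.mul_apply, Fintype.sum_prod_type]
  simp [Lf, Rg, Pi.single_apply, Matrix.one_apply]

/-- `1` is a sum of `r a_i` -/
lemma one_left (h : Inv a) : ∃ r : Fin n → Matrix (Fin m) (Fin m) ℂ, (∀ i, RR a (r i)) ∧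
    ∑ i, r i * a i = 1 := by
  obtain ⟨K, d, hK, hd⟩ := h
  have : Nonempty (Fin K) := ⟨⟨0, hK⟩⟩
  let k : Fin K := ⟨0, hK⟩
  refine ⟨fun i => cp (DM a d)⁻¹ (Pi.single k 1) (fun l => d i l k), fun i =>
    ⟨Fin K, inferInstance, inferInstance, inferInstance, d, _, _, hd, rfl⟩, ?_⟩
  have h1 : (DM a d)⁻¹ * DM a d = 1 := Matrix.nonsing_inv_mul _ (isUnit_iff_ne_zero.2 hd)
  have h2 : ∑ i, Rg m (fun l => d i l k) * a i = DM a d * Rg m (Pi.single k 1) := by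
    ext ⟨z, l⟩ y
    rw [Matrix.sum_apply, Matrix.mul_apply, Fintype.sum_prod_type]
    simp [Matrix.mul_apply, Rg, DM_apply, Pi.single_apply, mul_comm]
  simp only [cp_eq, Matrix.mul_assoc]
  rw [← Matrix.mul_sum, ← Matrix.mul_sum, h2, ← Matrix.mul_assoc _ (DM a d), h1, Matrix.one_mul]
  exact LR k


/-- `1` is a sum of `a_i r` -/
lemma one_right (h : Inv a) : ∃ r : Fin n → Matrix (Fin m) (Fin m) ℂ, (∀ i, RR a (r i)) ∧
    ∑ i, a i * r i = 1 := by
  obtain ⟨K, d, hK, hd⟩ := h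
  have : Nonempty (Fin K) := ⟨⟨0, hK⟩⟩
  let k : Fin K := ⟨0, hK⟩
  refine ⟨fun i => cp (DM a d)⁻¹ (fun l => d i k l) (Pi.single k 1), fun i =>
    ⟨Fin K, inferInstance, inferInstance, inferInstance, d, _, _, hd, rfl⟩, ?_⟩
  have h1 : DM a d * (DM a d)⁻¹ = 1 := Matrix.mul_nonsing_inv _ (isUnit_iff_ne_zero.2 hd)
  have h2 : ∑ i, a i * Lf m (fun l => d i k l) = Lf m (Pi.single k 1) * DM a d := by
    ext y ⟨z, l⟩
    rw [Matrix.sum_apply, Matrix.mul_apply, Fintype.sum_prod_type]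
    simp [Matrix.mul_apply, Lf, DM_apply, Pi.single_apply]
  simp only [cp_eq, ← Matrix.mul_assoc]
  rw [← Matrix.sum_mul, ← Matrix.sum_mul, h2, Matrix.mul_assoc _ (DM a d), h1, Matrix.mul_one]
  exact LR k


/-- the algebra `∑ RR a_j` -/
def BB (a : Fin n → Matrix (Fin m) (Fin m) ℂ) (h : Inv a) :
    Subalgebra ℂ (Matrix (Fin m) (Fin m) ℂ) where
  carrier := {X | ∃ r : Fin n → Matrix (Fin m) (Fin m) ℂ, (∀ i, RR a (r i)) ∧
    ∑ i, r i * a i = X}
  mul_mem' := by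
    rintro X Y ⟨r, hr, rfl⟩ ⟨r', hr', rfl⟩
    refine ⟨fun k => ∑ j, r j * a j * r' k, fun k => RR.sum h _ _ fun j _ => (hr j).mul j (hr' k),
      ?_⟩
    rw [Matrix.mul_sum]
    refine Finset.sum_congr rfl fun k _ => ?_
    rw [Matrix.sum_mul, Matrix.sum_mul]
    refine Finset.sum_congr rfl fun j _ => ?_
    rw [Matrix.mul_assoc]
  add_mem' := by
    rintro X Y ⟨r, hr, rfl⟩ ⟨r', hr', rfl⟩
    refine ⟨fun k => r k + r' k, fun k => (hr k).add (hr' k), ?_⟩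
    rw [← Finset.sum_add_distrib]
    exact Finset.sum_congr rfl fun k _ => by rw [add_mul]
  algebraMap_mem' := by
    intro c
    obtain ⟨r, hr, h1⟩ := one_left h
    refine ⟨fun k => c • r k, fun k => (hr k).smul c, ?_⟩
    rw [Algebra.algebraMap_eq_smul_one, ← h1, Finset.smul_sum]
    exact Finset.sum_congr rfl fun k _ => by rw [smul_mul_assoc]

lemma mem_BB (h : Inv a) {X : Matrix (Fin m) (Fin m) ℂ} : X ∈ BB a h ↔
    ∃ r : Fin n → Matrix (Fin m) (Fin m) ℂ, (∀ i, RR a (r i)) ∧ ∑ i, r i * a i = X := Iff.rfl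

lemma RR_mem_BB (h : Inv a) {r : Matrix (Fin m) (Fin m) ℂ} (hr : RR a r) (j : Fin n) :
    r * a j ∈ BB a h := by
  classical
  rw [mem_BB]
  refine ⟨Pi.single j r, fun i => ?_, ?_⟩
  · by_cases hi : i = j
    · subst hi; rwa [Pi.single_eq_same]
    · rw [Pi.single_eq_of_ne hi]; exact RR.zero h
  · rw [Finset.sum_eq_single j]
    · rw [Pi.single_eq_same]
    · intro i _ hi
      rw [Pi.single_eq_of_ne hi, zero_mul]
    · simp

/-- the compression maps `imS a T` to `T` -/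
lemma RR_maps (h : Inv a) {T : Submodule ℂ (Fin m → ℂ)}
    (hT : ∀ x ∈ BB a h, T.map (Matrix.mulVecLin x) ≤ T) {r : Matrix (Fin m) (Fin m) ℂ}
    (hr : RR a r) {w : Fin m → ℂ} (hw : w ∈ imS a T) : r *ᵥ w ∈ T := by
  have h1 : imS a T ≤ T.comap (Matrix.mulVecLin r) := by
    unfold imS
    refine iSup_le fun j => ?_
    rintro _ ⟨t, ht, rfl⟩
    rw [Submodule.mem_comap, Matrix.mulVecLin_apply, Matrix.mulVecLin_apply, Matrix.mulVec_mulVec]
    exact hT _ (RR_mem_BB h hr j) ⟨t, ht, rfl⟩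
  exact h1 hw

lemma finrank_le (h : Inv a) {T : Submodule ℂ (Fin m → ℂ)}
    (hT : ∀ x ∈ BB a h, T.map (Matrix.mulVecLin x) ≤ T) :
    Module.finrank ℂ (imS a T) ≤ Module.finrank ℂ T := by
  obtain ⟨K, d, hK, hd⟩ := id h
  have hne : Nonempty (Fin K) := ⟨⟨0, hK⟩⟩
  have hRR : ∀ k l : Fin K, RR a (cp (DM a d)⁻¹ (Pi.single k 1) (Pi.single l 1)) := fun k l =>
    ⟨Fin K, inferInstance, inferInstance, inferInstance, d, _, _, hd, rfl⟩
  have hcp : ∀ (k l : Fin K) (x y : Fin m), cp (DM a d)⁻¹ (Pi.single k 1) (Pi.single l 1) x y =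
      (DM a d)⁻¹ (x, k) (y, l) := by
    intro k l x y
    simp [cp, Pi.single_apply]
  let Φ : (Fin K → imS a T) →ₗ[ℂ] (Fin K → T) :=
    { toFun := fun w k => ∑ l, ⟨cp (DM a d)⁻¹ (Pi.single k 1) (Pi.single l 1) *ᵥ (w l : Fin m → ℂ),
        RR_maps h hT (hRR k l) (w l).2⟩
      map_add' := by
        intro w w'
        funext k
        apply Subtype.ext
        simp [Matrix.mulVec_add, Finset.sum_add_distrib]
      map_smul' := by
        intro c w
        funext k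
        apply Subtype.ext
        simp [Matrix.mulVec_smul, Finset.smul_sum] }
  have hinj : Function.Injective Φ := by
    rw [← LinearMap.ker_eq_bot, LinearMap.ker_eq_bot']
    intro w hw
    let W : Fin m × Fin K → ℂ := fun p => (w p.2 : Fin m → ℂ) p.1
    have h1 : (DM a d)⁻¹ *ᵥ W = 0 := by
      funext ⟨x, k⟩
      have h2 := congrArg (fun v : T => (v : Fin m → ℂ) x) (congrFun hw k)
      have h3 : ((Φ w k : T) : Fin m → ℂ) x = ((DM a d)⁻¹ *ᵥ W) (x, k) := by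
        simp only [Φ, LinearMap.coe_mk, AddHom.coe_mk, Submodule.coe_sum, Finset.sum_apply,
          Matrix.mulVec, dotProduct, Fintype.sum_prod_type, W, hcp]
        exact Finset.sum_comm
      rw [← h3]
      exact h2
    have h4 : W = 0 := by
      have : DM a d *ᵥ ((DM a d)⁻¹ *ᵥ W) = W := by
        rw [Matrix.mulVec_mulVec, Matrix.mul_nonsing_inv (DM a d) (isUnit_iff_ne_zero.2 hd),
          Matrix.one_mulVec]
      rw [← this, h1, Matrix.mulVec_zero]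
    funext l
    apply Subtype.ext
    funext x
    exact congrFun h4 (x, l)
  have h5 := LinearMap.finrank_le_finrank_of_injective hinj
  rw [Module.finrank_pi_fintype, Module.finrank_pi_fintype] at h5
  simp only [Finset.sum_const, Finset.card_univ, Fintype.card_fin, smul_eq_mul] at h5
  exact Nat.le_of_mul_le_mul_left h5 hK

lemma BB_top (hBT : S_BT) (hm : 1 ≤ m) (hI : Ind a) (h : Inv a) : BB a h = ⊤ := by
  refine hBT m (BB a h) (fun T hT => ?_) hm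
  by_contra hc
  push Not at hc
  exact absurd (hI.2 T hc.1 hc.2) (not_lt.2 (finrank_le h hT))

lemma SS_all (hBT : S_BT) (hm : 1 ≤ m) (hI : Ind a) (h : Inv a)
    (E : Matrix (Fin m) (Fin m) ℂ) : SS a E := by
  obtain ⟨r, hr, h1⟩ := one_right h
  have h2 : E = ∑ j, a j * (r j * E) := by
    conv_lhs => rw [← one_mul E, ← h1, Finset.sum_mul]
    exact Finset.sum_congr rfl fun j _ => Matrix.mul_assoc _ _ _
  rw [h2]
  refine SS.sum h _ _ fun j _ => ?_
  have h3 : r j * E ∈ BB a h := by rw [BB_top hBT hm hI h]; trivial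
  rw [mem_BB] at h3
  obtain ⟨q, hq, h4⟩ := h3
  rw [← h4, Finset.mul_sum]
  refine SS.sum h _ _ fun k _ => ?_
  rw [← Matrix.mul_assoc]
  exact (hq k).sand j k

end

theorem burn (h : S_BT) : S_BURN := by
  intro n m a hm hI hInv E
  obtain ⟨κ, i1, i2, i3, d, f, g, h1, h2⟩ := SS_all h hm hI hInv E
  let e : Fin (Fintype.card κ) ≃ κ := (Fintype.equivFin κ).symm
  let e' : Fin m × Fin (Fintype.card κ) ≃ Fin m × κ := Equiv.prodCongr (Equiv.refl _) e
  have h3 : ∑ j, Matrix.kronecker (a j) ((d j).submatrix e e) = (DM a d).submatrix e' e' := by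
    ext ⟨x, s⟩ ⟨y, t⟩
    rw [Matrix.sum_apply]
    simp [DM_apply, e']
  have h4 : ∀ (X : Matrix (Fin m × κ) (Fin m × κ) ℂ) (u v : κ → ℂ),
      W837.GB.cmp (X.submatrix e' e') (u ∘ e) (v ∘ e) = cp X u v := by
    intro X u v
    ext x y
    unfold W837.GB.cmp cp
    rw [← Equiv.sum_comp e]
    refine Finset.sum_congr rfl fun s _ => ?_
    rw [← Equiv.sum_comp e]
    rfl
  refine ⟨Fintype.card κ, fun j => (d j).submatrix e e, fun j => f j ∘ e,
    fun j => g j ∘ e, Fintype.card_pos, ?_, ?_⟩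
  · rw [h3, Matrix.det_submatrix_equiv_self]
    exact h1
  · rw [h3, Matrix.inv_submatrix_equiv]
    simp only [h4]
    exact h2

end Pool.Agent.W753.GB
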