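import Mathlib
import Pool.Agent.W837.GB.Defs

/-!
Project GB (helper837): conditional small ball estimate for the bordered determinant.
-/

set_option autoImplicit false

namespace Pool.Agent.W753.GB

open Pool.Agent.W837.GB Matrix MeasureTheory ProbabilityTheory

instance gam_prob (ι : Type) [Fintype ι] : IsProbabilityMeasure (gam ι) := by
  unfold gam; infer_instance

theorem lowd (h1 : S_SE) (h2 : S_EVAL) (h3 : S_POLY) (h4 : S_SB) : S_LOWD := by
  intro n m a hm hI hInv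
  obtain ⟨K0, B, c, hK0, hB, hc, hev⟩ := h2 n m a hm hI hInv
  obtain ⟨C1, hC1, hsb⟩ := h4
  set A : ℝ := C1 * (2 * m * K0) * (3 * n * K0 ^ 2 + 1) * (4 * B ^ 2) with hA
  obtain ⟨C, hC⟩ := exists_nat_ge (A + 4 + (2 * m * K0 + 1) + 1 / c + C1)
  have hmR : (1 : ℝ) ≤ m := by exact_mod_cast hm
  have hK0R : (1 : ℝ) ≤ K0 := by exact_mod_cast hK0
  have hnR : (0 : ℝ) ≤ n := Nat.cast_nonneg _
  have hA0 : 0 ≤ A := by positivity
  have hc0 : 0 < 1 / c := by positivity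
  have hmK : (1 : ℝ) ≤ m * K0 := by nlinarith
  have hCp : (0 : ℝ) ≤ 2 * m * K0 + 1 := by positivity
  have hCA : A ≤ C := by linarith
  have hC4 : (4 : ℝ) ≤ C := by linarith
  have hCm : (2 * m * K0 + 1 : ℝ) ≤ C := by linarith
  have hCc : 1 / c ≤ C := by linarith
  have hCC1 : C1 ≤ C := by linarith
  have hC0 : (0 : ℝ) < C := by linarith
  have hC4' : 4 ≤ C := by exact_mod_cast hC4
  have hCm' : 2 * m * K0 + 1 ≤ C := by exact_mod_cast hCm
  refine ⟨K0, C, hK0, by omega, ?_⟩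
  intro N' k1 g' δ s hN' hk1 hδ hδ2 htg hs hs1
  obtain ⟨k, hk, u, v, huv, hse⟩ := h1 (Fin m × Fin N') (AN a N' g') δ hδ hδ2
  have hkk : k ≤ k1 := by exact_mod_cast hk.trans htg
  obtain ⟨f, g, d, hf, hg, hd, hdet⟩ := hev N' k k1 (AN a N' g') u v hkk huv
  obtain ⟨P, hPd, hPr, hPz⟩ := h3 n m N' (K0 * k1) a g' hN'
  obtain ⟨z, hz, hPe⟩ := hPz f g d B hf hg hd
  have hN'R : (1 : ℝ) ≤ N' := by exact_mod_cast hN'
  have hk1R : (1 : ℝ) ≤ k1 := by exact_mod_cast hk1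
  have hsq : (1 : ℝ) ≤ Real.sqrt N' := by
    rw [Real.one_le_sqrt]; exact hN'R
  have hBc : (1 : ℝ) ≤ 2 * B * Real.sqrt N' := by
    calc (1 : ℝ) ≤ 2 * B * 1 := by linarith
      _ ≤ _ := by gcongr
  have hD1 : 1 ≤ 2 * m * (K0 * k1) := by
    have : 0 < 2 * m * (K0 * k1) := by positivity
    omega
  have key := hsb (Bd n N' (K0 * k1)) P (2 * m * (K0 * k1)) (2 * B * Real.sqrt N') s z hD1 hPd hBc
    hz hs hs1
  set x : ℝ := N' + k1 with hx
  have hx1 : 1 ≤ x := by rw [hx]; linarith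
  set E : ℝ := Real.exp (ld (AN a N' g') δ / 2 - δ * tg (AN a N' g') δ) with hE
  have hE0 : 0 < E := Real.exp_pos _
  -- lower bound of the determinant
  have hdet2 : E ≤ ‖(AN a N' g' + ∑ i, Matrix.vecMulVec (u i) (v i)).det‖ := by
    refine le_of_sq_le_sq ?_ (norm_nonneg _)
    refine le_trans (le_of_eq ?_) hse
    rw [hE, ← Real.exp_nat_mul]
    congr 1
    push_cast
    ring
  have hPn : c ^ k1 * E ≤ ‖MvPolynomial.eval z P‖ := by
    rw [hPe, hdet]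
    gcongr
  -- constants
  set Z0 : ℝ := C1 * ((2 * m * (K0 * k1) : ℕ) : ℝ) *
    ((Fintype.card (Bd n N' (K0 * k1)) : ℝ) + 1) * (2 * B * Real.sqrt N') ^ 2 with hZ0
  have hcard : (Fintype.card (Bd n N' (K0 * k1)) : ℝ) =
      n * (N' * (K0 * k1) + (K0 * k1 * N' + K0 * k1 * (K0 * k1))) := by
    simp [Bd, Fintype.card_sum, Fintype.card_prod]
  have hZpos : 0 < Z0 := by positivity
  have hZle : Z0 ≤ C * x ^ C := by
    have e1 : ((2 * m * (K0 * k1) : ℕ) : ℝ) ≤ 2 * m * K0 * x := by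
      push_cast
      have : (k1 : ℝ) ≤ x := by rw [hx]; linarith
      calc (2 * m * (K0 * k1) : ℝ) = 2 * m * K0 * k1 := by ring
        _ ≤ _ := by gcongr
    have e2 : (Fintype.card (Bd n N' (K0 * k1)) : ℝ) + 1 ≤ (3 * n * K0 ^ 2 + 1) * x ^ 2 := by
      rw [hcard]
      have hN'x : (N' : ℝ) ≤ x := by rw [hx]; linarith
      have hk1x : (k1 : ℝ) ≤ x := by rw [hx]; linarith
      have f1 : (N' : ℝ) * (K0 * k1) ≤ K0 ^ 2 * x ^ 2 := by
        calc (N' : ℝ) * (K0 * k1) ≤ x * (K0 * x) := by gcongr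
          _ = K0 * x ^ 2 := by ring
          _ ≤ K0 ^ 2 * x ^ 2 := by
              gcongr
              exact le_self_pow₀ hK0R two_ne_zero
      have f2 : (K0 * k1 * (K0 * k1) : ℝ) ≤ K0 ^ 2 * x ^ 2 := by
        calc (K0 * k1 * (K0 * k1) : ℝ) ≤ K0 * x * (K0 * x) := by gcongr
          _ = K0 ^ 2 * x ^ 2 := by ring
      have f3 : (N' * (K0 * k1) + (K0 * k1 * N' + K0 * k1 * (K0 * k1)) : ℝ) ≤ 3 * K0 ^ 2 * x ^ 2 := by
        have f5 : (K0 * k1 * N' : ℝ) = N' * (K0 * k1) := by ring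
        rw [f5]
        linarith
      have f4 : (1 : ℝ) ≤ x ^ 2 := one_le_pow₀ hx1
      calc (n * (N' * (K0 * k1) + (K0 * k1 * N' + K0 * k1 * (K0 * k1))) + 1 : ℝ)
          ≤ n * (3 * K0 ^ 2 * x ^ 2) + x ^ 2 := by gcongr
        _ = _ := by ring
    have e3 : (2 * B * Real.sqrt N') ^ 2 ≤ 4 * B ^ 2 * x := by
      rw [mul_pow, Real.sq_sqrt (by positivity)]
      have : (N' : ℝ) ≤ x := by rw [hx]; linarith
      calc (2 * B) ^ 2 * (N' : ℝ) = 4 * B ^ 2 * N' := by ring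
        _ ≤ _ := by gcongr
    calc Z0 ≤ C1 * (2 * m * K0 * x) * ((3 * n * K0 ^ 2 + 1) * x ^ 2) * (4 * B ^ 2 * x) := by
          rw [hZ0]; gcongr
      _ = A * x ^ 4 := by rw [hA]; ring
      _ ≤ C * x ^ C := by
          gcongr
  set Y : ℝ := s / (C * x ^ C) with hY
  have hxC : 1 ≤ x ^ C := one_le_pow₀ hx1
  have hY0 : 0 ≤ Y := by positivity
  have hYZ : Y ≤ s / Z0 := by
    rw [hY]
    exact div_le_div_of_nonneg_left hs.le hZpos hZle
  have hYc : Y ≤ c := by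
    rw [hY, div_le_iff₀ (by positivity)]
    have : 1 ≤ c * C := by
      rw [div_le_iff₀ hc] at hCc
      linarith
    calc s ≤ 1 * 1 := by linarith
      _ ≤ (c * C) * x ^ C := by gcongr
      _ = _ := by ring
  have hY1 : Y ≤ 1 := by
    rw [hY, div_le_one (by positivity)]
    calc s ≤ 1 * 1 := by linarith
      _ ≤ C * x ^ C := by gcongr; linarith
  have hpow : Y ^ (C * k1) ≤ (s / Z0) ^ (2 * m * (K0 * k1)) * c ^ k1 := by
    calc Y ^ (C * k1) ≤ Y ^ (2 * m * (K0 * k1) + k1) := by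
          apply pow_le_pow_of_le_one hY0 hY1
          calc 2 * m * (K0 * k1) + k1 = (2 * m * K0 + 1) * k1 := by ring
            _ ≤ C * k1 := by gcongr
      _ = Y ^ (2 * m * (K0 * k1)) * Y ^ k1 := pow_add _ _ _
      _ ≤ _ := by gcongr
  have hsub : {h : Bd n N' (K0 * k1) → ℝ |
      ‖((((Real.sqrt N')⁻¹ : ℝ) : ℂ) • W a (glue g' h)).det‖ < Y ^ (C * k1) * E} ⊆
      {x | ‖MvPolynomial.eval (fun i => ((x i : ℝ) : ℂ)) P‖ <
        (s / Z0) ^ (2 * m * (K0 * k1)) * ‖MvPolynomial.eval z P‖} := by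
    intro h hh
    have hh' : ‖((((Real.sqrt N')⁻¹ : ℝ) : ℂ) • W a (glue g' h)).det‖ < Y ^ (C * k1) * E := hh
    rw [← hPr h] at hh'
    show ‖MvPolynomial.eval (fun i => ((h i : ℝ) : ℂ)) P‖ <
        (s / Z0) ^ (2 * m * (K0 * k1)) * ‖MvPolynomial.eval z P‖
    refine lt_of_lt_of_le hh' ?_
    calc Y ^ (C * k1) * E ≤ (s / Z0) ^ (2 * m * (K0 * k1)) * c ^ k1 * E := by gcongr
      _ = (s / Z0) ^ (2 * m * (K0 * k1)) * (c ^ k1 * E) := by ring
      _ ≤ _ := by gcongr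
  refine (measureReal_mono hsub).trans (key.trans ?_)
  gcongr

end Pool.Agent.W753.GB
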